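import Pool.Agent.H74.BTL.Targets

/-!
# AMB: the flows with finite support in the amenable case (MP_60ff71_an)
-/

set_option autoImplicit false

universe u

open scoped RealInnerProductSpace

namespace Pool.Agent.H60.BTL

open Pool.Agent.H74.BTL

section

variable {α : Type*}

theorem span_dl_zero {B : Finset α} {v : L2 α}
    (hv : v ∈ Submodule.span ℝ ((dl : α → L2 α) '' (B : Set α))) (p : α) (hp : p ∉ B) :
    v p = 0 := by
  have h1 : Submodule.span ℝ ((dl : α → L2 α) '' (B : Set α)) ≤ (Submodule.span ℝ {dl p})ᗮ := by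
    rw [Submodule.span_le]
    rintro _ ⟨q, hq, rfl⟩
    rw [SetLike.mem_coe, Submodule.mem_orthogonal_singleton_iff_inner_right, inner_dl]
    exact dl_ne fun h => hp (h ▸ hq)
  have h2 := Submodule.mem_orthogonal_singleton_iff_inner_right.1 (h1 hv)
  rwa [inner_dl] at h2

theorem finrank_span_dl (B : Finset α) :
    Module.finrank ℝ (Submodule.span ℝ ((dl : α → L2 α) '' (B : Set α))) = B.card := by
  have h1 : LinearIndependent ℝ (fun p : B => (dl p.1 : L2 α)) :=
    (orthonormal_dl (α := α)).linearIndependent.comp _ Subtype.val_injective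
  have h2 := finrank_span_eq_card h1
  rw [Fintype.card_coe] at h2
  have h3 : (dl : α → L2 α) '' (B : Set α) = Set.range (fun p : B => (dl p.1 : L2 α)) := by
    ext v
    constructor
    · rintro ⟨p, hp, rfl⟩
      exact ⟨⟨p, hp⟩, rfl⟩
    · rintro ⟨p, rfl⟩
      exact ⟨p.1, p.2, rfl⟩
  rw [h3, h2]

end

theorem pf_AMB (h1 : T_TRI.{u}) (h2 : T_BDF.{u}) (h3 : T_EQA.{u}) : T_AMB.{u} := by
  classical
  intro G _ I _ s hF
  have hInv := (h2 G I s).2.1
  have hbd := (h2 G I s).2.2.2.1
  have hnorm := ((h3 G I I).2.2 (Cf s) hInv).2.2.2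
  have key : ∀ ε : ℝ, 0 < ε → (Fintype.card I : ℝ) - 1 - Fintype.card I * ε ≤ dm (Cf s) := by
    intro ε hε
    obtain ⟨X, hX, hXε⟩ := hF ε hε
    have hXc : (0 : ℝ) < X.card := by exact_mod_cast hX.card_pos
    set EX : Finset (G × I) := (X ×ˢ (Finset.univ : Finset I)).filter
      (fun p => p.1 * s p.2 ∈ X) with hEX
    -- the number of edges
    have hc : (Fintype.card I : ℝ) * X.card - Fintype.card I * ε * X.card ≤ EX.card := by
      have e1 : (X ×ˢ (Finset.univ : Finset I)).card = EX.card +
          ((X ×ˢ (Finset.univ : Finset I)).filter (fun p => ¬ p.1 * s p.2 ∈ X)).card := by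
        rw [hEX, Finset.card_filter_add_card_filter_not]
      have e2 : ((X ×ˢ (Finset.univ : Finset I)).filter (fun p => ¬ p.1 * s p.2 ∈ X)).card =
          ∑ i : I, (X.filter fun x => x * s i ∉ X).card := by
        rw [Finset.card_filter, Finset.sum_product_right]
        refine Finset.sum_congr rfl fun i _ => ?_
        rw [Finset.card_filter]
      have e3 : (∑ i : I, (((X.filter fun x => x * s i ∉ X).card : ℕ) : ℝ)) ≤
          Fintype.card I * (ε * X.card) := by
        calc (∑ i : I, (((X.filter fun x => x * s i ∉ X).card : ℕ) : ℝ))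
            ≤ ∑ _i : I, ε * X.card := Finset.sum_le_sum fun i _ => hXε i
          _ = _ := by rw [Finset.sum_const, Finset.card_univ, nsmul_eq_mul]
      rw [Finset.card_product, Finset.card_univ, e2] at e1
      have e4 : ((X.card : ℝ) * Fintype.card I) = EX.card +
          ∑ i : I, (((X.filter fun x => x * s i ∉ X).card : ℕ) : ℝ) := by exact_mod_cast e1
      nlinarith
    -- the kernel
    set U := Submodule.span ℝ ((dl : G × I → L2 (G × I)) '' (EX : Set (G × I))) with hU
    have : FiniteDimensional ℝ U := by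
      rw [hU]
      exact FiniteDimensional.span_of_finite ℝ (EX.finite_toSet.image _)
    set L : U →ₗ[ℝ] L2 (G × Unit) := (bd s : L2 (G × I) →ₗ[ℝ] L2 (G × Unit)).domRestrict U with hL
    have hrk := LinearMap.finrank_range_add_finrank_ker L
    have hUf : Module.finrank ℝ U = EX.card := finrank_span_dl EX
    have hrange : Module.finrank ℝ (LinearMap.range L) ≤ X.card := by
      set S : Finset (L2 (G × Unit)) := X.image (fun x => dl (x, ())) with hS
      have hle : LinearMap.range L ≤ Submodule.span ℝ (S : Set (L2 (G × Unit))) := by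
        have e1 : LinearMap.range L = U.map (bd s : L2 (G × I) →ₗ[ℝ] L2 (G × Unit)) :=
          LinearMap.range_domRestrict _ _
        rw [e1, hU, Submodule.map_span, Submodule.span_le]
        rintro _ ⟨_, ⟨p, hp, rfl⟩, rfl⟩
        have hp' := Finset.mem_filter.1 hp
        have hp1 : p.1 ∈ X := (Finset.mem_product.1 hp'.1).1
        have e2 : (bd s : L2 (G × I) →ₗ[ℝ] L2 (G × Unit)) (dl p) =
            dl (p.1 * s p.2, ()) - dl (p.1, ()) := hbd p.1 p.2
        rw [SetLike.mem_coe, e2]
        refine Submodule.sub_mem _ (Submodule.subset_span ?_) (Submodule.subset_span ?_)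
        · exact Finset.mem_coe.2 (Finset.mem_image.2 ⟨_, hp'.2, rfl⟩)
        · exact Finset.mem_coe.2 (Finset.mem_image.2 ⟨_, hp1, rfl⟩)
      have : FiniteDimensional ℝ (Submodule.span ℝ (S : Set (L2 (G × Unit)))) :=
        FiniteDimensional.span_of_finite ℝ S.finite_toSet
      refine (Submodule.finrank_mono hle).trans ?_
      exact (finrank_span_finset_le_card S).trans Finset.card_image_le
    set W := (LinearMap.ker L).map U.subtype with hW
    have hWf : Module.finrank ℝ W = Module.finrank ℝ (LinearMap.ker L) :=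
      Submodule.finrank_map_subtype_eq U (LinearMap.ker L)
    have hWU : W ≤ U := by
      rintro _ ⟨u, -, rfl⟩
      exact u.2
    have hWC : W ≤ Cf s := by
      rintro _ ⟨u, hu, rfl⟩
      refine ⟨?_, ?_⟩
      · refine EX.finite_toSet.subset fun p hp => ?_
        by_contra hc
        exact hp (span_dl_zero u.2 p hc)
      · exact LinearMap.mem_ker.1 hu
    have ht := h1 (L2 (G × I)) (G × I) dl EX (Cf s) W orthonormal_dl
      (hWC.trans (Submodule.le_topologicalClosure _)) hWU
    have hsum : ∑ p ∈ EX, ‖PR (Cf s) (dl p)‖ ^ 2 ≤ X.card * dm (Cf s) := by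
      calc ∑ p ∈ EX, ‖PR (Cf s) (dl p)‖ ^ 2
          ≤ ∑ p ∈ X ×ˢ (Finset.univ : Finset I), ‖PR (Cf s) (dl p)‖ ^ 2 :=
            Finset.sum_le_sum_of_subset_of_nonneg (Finset.filter_subset _ _)
              fun p _ _ => by positivity
        _ = ∑ x ∈ X, ∑ i : I, ‖PR (Cf s) (dl (x, i))‖ ^ 2 := Finset.sum_product _ _ _
        _ = ∑ x ∈ X, dm (Cf s) := by
            refine Finset.sum_congr rfl fun x _ => ?_
            unfold dm
            refine Finset.sum_congr rfl fun i _ => ?_
            rw [hnorm x i]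
        _ = X.card * dm (Cf s) := by rw [Finset.sum_const, nsmul_eq_mul]
    have hW2 : (EX.card : ℝ) - X.card ≤ Module.finrank ℝ W := by
      rw [hWf]
      have e1 : (Module.finrank ℝ (LinearMap.range L) : ℝ) +
          Module.finrank ℝ (LinearMap.ker L) = EX.card := by
        rw [← hUf]
        exact_mod_cast hrk
      have e2 : (Module.finrank ℝ (LinearMap.range L) : ℝ) ≤ X.card := by exact_mod_cast hrange
      linarith
    have hfin : (X.card : ℝ) * ((Fintype.card I : ℝ) - 1 - Fintype.card I * ε) ≤
        X.card * dm (Cf s) := by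
      calc (X.card : ℝ) * ((Fintype.card I : ℝ) - 1 - Fintype.card I * ε)
          = ((Fintype.card I : ℝ) * X.card - Fintype.card I * ε * X.card) - X.card := by ring
        _ ≤ EX.card - X.card := by linarith
        _ ≤ Module.finrank ℝ W := hW2
        _ ≤ _ := ht.trans hsum
    exact le_of_mul_le_mul_left hfin hXc
  by_contra hcon
  have hcon' := not_le.1 hcon
  set δ := (Fintype.card I : ℝ) - 1 - dm (Cf s) with hδ
  have hδ0 : 0 < δ := by rw [hδ]; linarith
  have hk := key (δ / (2 * (Fintype.card I + 1))) (by positivity)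
  have e1 : (Fintype.card I : ℝ) * (δ / (2 * (Fintype.card I + 1))) ≤ δ / 2 := by
    rw [mul_div_assoc', div_le_div_iff₀ (by positivity) (by positivity)]
    nlinarith [Nat.cast_nonneg (α := ℝ) (Fintype.card I)]
  linarith

end Pool.Agent.H60.BTL
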