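import Pool.Agent.H74.BTL.Targets

/-!
# DMB: basic properties of the dimension (MP_60ff71_an)
-/

set_option autoImplicit false

universe u

open scoped RealInnerProductSpace

namespace Pool.Agent.H60.BTL

open Pool.Agent.H74.BTL

section Hilbert

variable {E : Type*} [NormedAddCommGroup E] [InnerProductSpace ℝ E] [CompleteSpace E]

theorem PR_mem (V : Submodule ℝ E) (x : E) : PR V x ∈ V.topologicalClosure :=
  Submodule.starProjection_apply_mem _ x

theorem PR_orth (V : Submodule ℝ E) (x w : E) (hw : w ∈ V.topologicalClosure) :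
    ⟪x - PR V x, w⟫ = (0 : ℝ) :=
  Submodule.starProjection_inner_eq_zero x w hw

omit [CompleteSpace E] in
theorem orth_closure {V : Submodule ℝ E} {x : E} (h : ∀ w ∈ V, ⟪x, w⟫ = (0 : ℝ)) (w : E)
    (hw : w ∈ V.topologicalClosure) : ⟪x, w⟫ = (0 : ℝ) := by
  have h1 : V ≤ (Submodule.span ℝ {x})ᗮ := by
    intro v hv
    rw [Submodule.mem_orthogonal_singleton_iff_inner_right]
    exact h v hv
  have h2 := Submodule.topologicalClosure_minimal _ h1 (Submodule.isClosed_orthogonal _)
  exact Submodule.mem_orthogonal_singleton_iff_inner_right.1 (h2 hw)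

theorem PR_eq {V : Submodule ℝ E} {x y : E} (h1 : y ∈ V.topologicalClosure)
    (h2 : ∀ w ∈ V, ⟪x - y, w⟫ = (0 : ℝ)) : PR V x = y :=
  (Submodule.eq_starProjection_of_mem_of_inner_eq_zero h1
    (fun w hw => orth_closure h2 w hw))

theorem PR_norm_le (V : Submodule ℝ E) (x : E) : ‖PR V x‖ ≤ ‖x‖ :=
  Submodule.norm_starProjection_apply_le _ x

theorem PR_PR {V W : Submodule ℝ E} (h : V ≤ W.topologicalClosure) (x : E) :
    PR V x = PR V (PR W x) := by
  refine PR_eq (PR_mem _ _) fun w hw => ?_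
  have e : x - PR V (PR W x) = (x - PR W x) + (PR W x - PR V (PR W x)) := by abel
  rw [e, inner_add_left, PR_orth W x w (h hw), PR_orth V _ w (V.le_topologicalClosure hw),
    add_zero]

theorem PR_mono {V W : Submodule ℝ E} (h : V ≤ W.topologicalClosure) (x : E) :
    ‖PR V x‖ ≤ ‖PR W x‖ := by
  rw [PR_PR h]
  exact PR_norm_le _ _

theorem PR_pyth (V : Submodule ℝ E) (x : E) : ‖x‖ ^ 2 = ‖PR V x‖ ^ 2 + ‖x - PR V x‖ ^ 2 := by
  have h := PR_orth V x _ (PR_mem V x)
  have e : x = (x - PR V x) + PR V x := by abel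
  have h2 := norm_add_sq_real (x - PR V x) (PR V x)
  rw [← e, h] at h2
  linarith

theorem PR_compl (V : Submodule ℝ E) (x : E) : PR Vᗮ x = x - PR V x := by
  refine PR_eq (Submodule.le_topologicalClosure _ ?_) fun w hw => ?_
  · rw [Submodule.mem_orthogonal']
    intro v hv
    exact PR_orth V x v (V.le_topologicalClosure hv)
  · have e : x - (x - PR V x) = PR V x := by abel
    rw [e, real_inner_comm]
    refine orth_closure (V := V) (fun v hv => ?_) _ (PR_mem V x)
    rw [real_inner_comm]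
    exact hw v hv

theorem PR_sup {V W : Submodule ℝ E} (h : ∀ v ∈ V, ∀ w ∈ W, ⟪v, w⟫ = (0 : ℝ)) (x : E) :
    PR (V ⊔ W) x = PR V x + PR W x ∧ ⟪PR V x, PR W x⟫ = (0 : ℝ) := by
  have hV : ∀ v ∈ V, ⟪v, PR W x⟫ = (0 : ℝ) := fun v hv => orth_closure (h v hv) _ (PR_mem W x)
  have hW : ∀ w ∈ W, ⟪w, PR V x⟫ = (0 : ℝ) := fun w hw =>
    orth_closure (fun v hv => by rw [real_inner_comm]; exact h v hv w hw) _ (PR_mem V x)
  refine ⟨PR_eq ?_ fun y hy => ?_, ?_⟩
  · refine Submodule.add_mem _ ?_ ?_
    · exact Submodule.topologicalClosure_mono le_sup_left (PR_mem V x)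
    · exact Submodule.topologicalClosure_mono le_sup_right (PR_mem W x)
  · obtain ⟨v, hv, w, hw, rfl⟩ := Submodule.mem_sup.1 hy
    have e1 := PR_orth V x v (V.le_topologicalClosure hv)
    have e2 := PR_orth W x w (W.le_topologicalClosure hw)
    have e3 : ⟪PR W x, v⟫ = (0 : ℝ) := by rw [real_inner_comm]; exact hV v hv
    have e4 : ⟪PR V x, w⟫ = (0 : ℝ) := by rw [real_inner_comm]; exact hW w hw
    rw [inner_sub_left] at e1 e2
    rw [inner_sub_left, inner_add_right, inner_add_left, inner_add_right, inner_add_right]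
    linarith
  · exact orth_closure (fun w hw => by rw [real_inner_comm]; exact hW w hw) _ (PR_mem W x)

end Hilbert

section Group

variable {G : Type u} [Group G] {I : Type} [Fintype I]

theorem inv_closure {V : Submodule ℝ (L2 (G × I))} (hV : Pool.Agent.H74.BTL.Inv V) (g : G) (v : L2 (G × I))
    (hv : v ∈ V.topologicalClosure) : lt g v ∈ V.topologicalClosure :=
  map_mem_closure (lt g).continuous hv fun w hw => hV g w hw

theorem PR_lt {V : Submodule ℝ (L2 (G × I))} (hV : Pool.Agent.H74.BTL.Inv V) (g : G) (x : L2 (G × I)) :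
    PR V (lt g x) = lt g (PR V x) := by
  refine PR_eq (inv_closure hV g _ (PR_mem V x)) fun w hw => ?_
  have e1 : w = lt g (lt g⁻¹ w) := by rw [← lt_mul, mul_inv_cancel, lt_one]
  rw [e1, ← map_sub, inner_lt]
  exact PR_orth V x _ (V.le_topologicalClosure (hV _ _ hw))

end Group

theorem pf_DMB : T_DMB.{u} := by
  intro G _ I _
  have hmono : ∀ V W : Submodule ℝ (L2 (G × I)), V ≤ W.topologicalClosure → dm V ≤ dm W := by
    intro V W h
    refine Finset.sum_le_sum fun i _ => ?_
    exact pow_le_pow_left₀ (norm_nonneg _) (PR_mono h _) 2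
  have hnn : ∀ V : Submodule ℝ (L2 (G × I)), 0 ≤ dm V := fun V =>
    Finset.sum_nonneg fun i _ => by positivity
  refine ⟨hmono, fun V => ⟨hnn V, ?_, ?_, ?_⟩, fun V hV hne => ?_, fun V W h => ?_⟩
  · have : dm V ≤ ∑ _i : I, (1 : ℝ) := by
      refine Finset.sum_le_sum fun i _ => ?_
      have h1 := PR_norm_le V (dl ((1 : G), i))
      rw [norm_dl] at h1
      exact pow_le_one₀ (norm_nonneg _) h1
    simpa using this
  · refine le_antisymm (hmono V.topologicalClosure V le_rfl) (hmono V V.topologicalClosure ?_)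
    exact (V.le_topologicalClosure).trans (Submodule.le_topologicalClosure _)
  · have h1 : ∀ i : I, ‖PR Vᗮ (dl ((1 : G), i))‖ ^ 2 = 1 - ‖PR V (dl ((1 : G), i))‖ ^ 2 := by
      intro i
      have h2 := PR_pyth V (dl ((1 : G), i))
      rw [norm_dl] at h2
      rw [PR_compl]
      linarith
    unfold dm
    rw [Finset.sum_congr rfl fun i _ => h1 i, Finset.sum_sub_distrib]
    simp
  · rcases (hnn V).lt_or_eq with h0 | h0
    · exact h0
    · exfalso
      apply hne
      rw [Submodule.eq_bot_iff]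
      intro v hv
      have h1 : ∀ i : I, PR V (dl ((1 : G), i)) = 0 := by
        intro i
        have h2 := (Finset.sum_eq_zero_iff_of_nonneg (fun i _ => by positivity)).1 h0.symm i
          (Finset.mem_univ i)
        exact norm_eq_zero.1 ((pow_eq_zero_iff (two_ne_zero)).1 h2)
      ext ⟨g, i⟩
      have h3 : PR V (dl (g, i)) = 0 := by
        have : dl (g, i) = lt g (dl ((1 : G), i)) := by rw [lt_dl, mul_one]
        rw [this, PR_lt hV, h1 i, map_zero]
      have h4 := PR_orth V (dl (g, i)) v (V.le_topologicalClosure hv)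
      rw [h3, sub_zero, inner_dl] at h4
      exact h4
  · unfold dm
    rw [← Finset.sum_add_distrib]
    refine Finset.sum_congr rfl fun i _ => ?_
    obtain ⟨h1, h2⟩ := PR_sup h (dl ((1 : G), i))
    rw [h1, norm_add_sq_real, h2]
    ring

end Pool.Agent.H60.BTL
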