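import Pool.Agent.H74.BTL.Targets

/-!
# LFT: lifting of forests (MP_60ff71_an)
-/

set_option autoImplicit false

universe u

namespace Pool.Agent.H60.BTL

open Pool.Agent.H74.BTL

theorem mk_mul_coe {G : Type u} [Group G] {L : Subgroup G} (g : G) (l : L) :
    ((g * (l : G) : G) : G ⧸ L) = (g : G ⧸ L) := QuotientGroup.mk_mul_of_mem g l.2

theorem mk_mul_inv {G : Type u} [Group G] {L : Subgroup G} (g : G) (l : L) :
    ((g * (l : G)⁻¹ : G) : G ⧸ L) = (g : G ⧸ L) :=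
  QuotientGroup.mk_mul_of_mem g (L.inv_mem l.2)

theorem pf_LFT (h1 : T_LEF.{u}) : T_LFT.{u} := by
  classical
  intro G _ L s F hF
  rw [linearIndependent_iff']
  intro S c hsum i hi
  by_contra hci
  -- the support
  set S' := S.filter (fun p => c p ≠ 0) with hS'
  have hsum' : ∑ p ∈ S', c p • vx L s p.1 = 0 := by
    rw [hS', Finset.sum_filter_of_ne]
    · exact hsum
    · intro p _ hp hc
      exact hp (by rw [hc, zero_smul])
  set F' : Finset G := S'.image (fun p => p.1.1 * (p.1.2 : G)) with hF'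
  have hF'F : ∀ g ∈ F', g ∈ F := by
    intro g hg
    obtain ⟨p, -, rfl⟩ := Finset.mem_image.1 hg
    exact p.2
  have hne : F'.Nonempty := ⟨_, Finset.mem_image_of_mem _ (Finset.mem_filter.2 ⟨hi, hci⟩)⟩
  have hind : LinearIndependent ℝ (fun g : F' =>
      (Finsupp.single (((g : G) * s : G) : G ⧸ L) 1 - Finsupp.single ((g : G) : G ⧸ L) 1 :
        (G ⧸ L) →₀ ℝ)) := by
    have := hF.comp (fun g : F' => (⟨g.1, hF'F g.1 g.2⟩ : F)) (by
      intro g g' h
      exact Subtype.ext (congrArg (fun x : F => (x : G)) h))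
    exact this
  obtain ⟨v, g₀, hg₀, hor, huniq⟩ := h1 (G ⧸ L) G F' (fun g => (g : G ⧸ L))
    (fun g => ((g * s : G) : G ⧸ L)) hne hind
  obtain ⟨p₀, hp₀, rfl⟩ := Finset.mem_image.1 hg₀
  have hcp₀ : c p₀ ≠ 0 := (Finset.mem_filter.1 hp₀).2
  -- the evaluation of the edges
  have hev : ∀ (p : {p : G × L // p.1 * (p.2 : G) ∈ F}) (y : G), (vx L s p.1) y =
      (if p.1.1 * p.1.2 * s * (p.1.2 : G)⁻¹ = y then (1 : ℝ) else 0) -
        (if p.1.1 = y then (1 : ℝ) else 0) := by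
    intro p y
    unfold vx
    rw [Finsupp.sub_apply, Finsupp.single_apply, Finsupp.single_apply]
  have hsy : ∀ y : G, ∑ p ∈ S', c p * (vx L s p.1) y = 0 := by
    intro y
    have := congrArg (fun f : G →₀ ℝ => f y) hsum'
    simpa [Finsupp.finsetSum_apply] using this
  -- cosets
  have hA : ∀ p ∈ S', ∀ y : G, (y : G ⧸ L) = v → p.1.1 = y →
      ((p.1.1 * (p.1.2 : G) : G) : G ⧸ L) = v := by
    intro p _ y hy hpy
    rw [mk_mul_coe, hpy, hy]
  have hB : ∀ p ∈ S', ∀ y : G, (y : G ⧸ L) = v → p.1.1 * p.1.2 * s * (p.1.2 : G)⁻¹ = y →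
      ((p.1.1 * (p.1.2 : G) * s : G) : G ⧸ L) = v := by
    intro p _ y hy hpy
    rw [← hy, ← hpy, mk_mul_inv]
  have hg : ∀ p ∈ S', p.1.1 * (p.1.2 : G) ≠ p₀.1.1 * (p₀.1.2 : G) →
      ((p.1.1 * (p.1.2 : G) : G) : G ⧸ L) ≠ v ∧ ((p.1.1 * (p.1.2 : G) * s : G) : G ⧸ L) ≠ v :=
    fun p hp hne => huniq _ (Finset.mem_image_of_mem _ hp) hne
  have hext : ∀ p : {p : G × L // p.1 * (p.2 : G) ∈ F}, p.1.1 = p₀.1.1 → p.1.2 = p₀.1.2 →
      p = p₀ := fun p e1 e2 => Subtype.ext (Prod.ext e1 e2)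
  rcases hor with ⟨hv, hnv⟩ | ⟨hv, hnv⟩
  · -- the point `p₀.1`
    have hy : ((p₀.1.1 : G) : G ⧸ L) = v := by
      rw [← hv]
      exact (mk_mul_coe _ _).symm
    have hno : ∀ p ∈ S', p.1.1 * p.1.2 * s * (p.1.2 : G)⁻¹ ≠ p₀.1.1 := by
      intro p hp he
      have e1 := hB p hp _ hy he
      by_cases h : p.1.1 * (p.1.2 : G) = p₀.1.1 * (p₀.1.2 : G)
      · rw [h] at e1
        exact hnv e1
      · exact (hg p hp h).2 e1
    have hone : ∀ p ∈ S', p.1.1 = p₀.1.1 → p = p₀ := by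
      intro p hp he
      have e1 := hA p hp _ hy he
      by_cases h : p.1.1 * (p.1.2 : G) = p₀.1.1 * (p₀.1.2 : G)
      · refine hext p he (Subtype.ext ?_)
        rw [he] at h
        exact mul_left_cancel h
      · exact absurd e1 (hg p hp h).1
    have hs := hsy p₀.1.1
    rw [Finset.sum_eq_single_of_mem p₀ hp₀ (fun p hp hne => by
      rw [hev, if_neg (hno p hp), if_neg fun he => hne (hone p hp he), sub_zero, mul_zero])] at hs
    rw [hev, if_neg (hno p₀ hp₀), if_pos rfl] at hs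
    exact hcp₀ (by linarith)
  · -- the point `p₀.1 l s l⁻¹`
    have hy : ((p₀.1.1 * p₀.1.2 * s * (p₀.1.2 : G)⁻¹ : G) : G ⧸ L) = v := by
      rw [← hv, mk_mul_inv]
    have hno : ∀ p ∈ S', p.1.1 ≠ p₀.1.1 * p₀.1.2 * s * (p₀.1.2 : G)⁻¹ := by
      intro p hp he
      have e1 := hA p hp _ hy he
      by_cases h : p.1.1 * (p.1.2 : G) = p₀.1.1 * (p₀.1.2 : G)
      · rw [h] at e1
        exact hnv e1
      · exact (hg p hp h).1 e1
    have hone : ∀ p ∈ S', p.1.1 * p.1.2 * s * (p.1.2 : G)⁻¹ =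
        p₀.1.1 * p₀.1.2 * s * (p₀.1.2 : G)⁻¹ → p = p₀ := by
      intro p hp he
      have e1 := hB p hp _ hy he
      by_cases h : p.1.1 * (p.1.2 : G) = p₀.1.1 * (p₀.1.2 : G)
      · rw [h] at he
        have e2 : (p.1.2 : G) = p₀.1.2 := inv_injective (mul_left_cancel he)
        refine hext p ?_ (Subtype.ext e2)
        rw [e2] at h
        exact mul_right_cancel h
      · exact absurd e1 (hg p hp h).2
    have hs := hsy (p₀.1.1 * p₀.1.2 * s * (p₀.1.2 : G)⁻¹)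
    rw [Finset.sum_eq_single_of_mem p₀ hp₀ (fun p hp hne => by
      rw [hev, if_neg fun he => hne (hone p hp he), if_neg (hno p hp), sub_zero, mul_zero])] at hs
    rw [hev, if_pos rfl, if_neg (hno p₀ hp₀)] at hs
    exact hcp₀ (by linarith)

end Pool.Agent.H60.BTL
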