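import Pool.Agent.H74.BTL.Targets

/-!
# POW: traces of powers (MP_60ff71_an)
-/

set_option autoImplicit false

universe u

open scoped RealInnerProductSpace

namespace Pool.Agent.H60.BTL

open Pool.Agent.H74.BTL

section

variable {G : Type u} [Group G] {I J : Type} [Fintype I] [Fintype J]

/-- the operators `R_k` -/
noncomputable def Rk (S : L2 (G × I) →L[ℝ] L2 (G × J)) (c : ℝ) :
    ℕ → (L2 (G × J) →L[ℝ] L2 (G × J))
  | 0 => 0
  | k + 1 => c • 1 + Rk S c k ∘L (1 - c • (S ∘L ContinuousLinearMap.adjoint S))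

theorem Rk_succ_apply (S : L2 (G × I) →L[ℝ] L2 (G × J)) (c : ℝ) (k : ℕ) (v : L2 (G × J)) :
    Rk S c (k + 1) v =
      c • v + Rk S c k (v - c • S (ContinuousLinearMap.adjoint S v)) := rfl

theorem pow_left (S : L2 (G × I) →L[ℝ] L2 (G × J)) (c : ℝ) (k : ℕ) : ∀ v : L2 (G × I),
    ((1 - c • (ContinuousLinearMap.adjoint S ∘L S)) ^ k) v =
      v - ContinuousLinearMap.adjoint S (Rk S c k (S v)) := by
  induction k with
  | zero =>
    intro v
    simp [Rk]
  | succ k ih =>
    intro v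
    rw [pow_succ, ContinuousLinearMap.mul_apply, ih, Rk_succ_apply]
    have e1 : (1 - c • (ContinuousLinearMap.adjoint S ∘L S)) v =
        v - c • ContinuousLinearMap.adjoint S (S v) := rfl
    rw [e1]
    simp only [map_sub, map_smul, map_add]
    abel

theorem pow_right (S : L2 (G × I) →L[ℝ] L2 (G × J)) (c : ℝ) (k : ℕ) : ∀ v : L2 (G × J),
    ((1 - c • (S ∘L ContinuousLinearMap.adjoint S)) ^ k) v =
      v - S (ContinuousLinearMap.adjoint S (Rk S c k v)) := by
  induction k with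
  | zero =>
    intro v
    simp [Rk]
  | succ k ih =>
    intro v
    rw [pow_succ, ContinuousLinearMap.mul_apply, ih, Rk_succ_apply]
    have e1 : (1 - c • (S ∘L ContinuousLinearMap.adjoint S)) v =
        v - c • S (ContinuousLinearMap.adjoint S v) := rfl
    rw [e1]
    simp only [map_sub, map_smul, map_add]
    abel

theorem Rk_eqv {S : L2 (G × I) →L[ℝ] L2 (G × J)} (hS : Eqv S)
    (hS' : Eqv (ContinuousLinearMap.adjoint S)) (c : ℝ) (k : ℕ) : Eqv (Rk S c k) := by
  induction k with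
  | zero =>
    intro g v
    show (0 : L2 (G × J)) = lt g 0
    rw [map_zero]
  | succ k ih =>
    intro g v
    have e : lt g v - c • lt g (S (ContinuousLinearMap.adjoint S v)) =
        lt g (v - c • S (ContinuousLinearMap.adjoint S v)) := by rw [map_sub, map_smul]
    rw [Rk_succ_apply, Rk_succ_apply, hS', hS, e, ih, map_add, map_smul]

end

theorem pf_POW (h1 : T_TRC.{u}) (h2 : T_EQA.{u}) : T_POW.{u} := by
  intro G _ I J _ _ S c hS k
  have hS' : Eqv (ContinuousLinearMap.adjoint S) := (h2 G I J).1 S hS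
  have hR := Rk_eqv hS hS' c k
  have hRS : Eqv (Rk S c k ∘L S) := by
    intro g v
    show Rk S c k (S (lt g v)) = lt g (Rk S c k (S v))
    rw [hS, hR]
  have hSS : Eqv (S ∘L ContinuousLinearMap.adjoint S) := by
    intro g v
    show S (ContinuousLinearMap.adjoint S (lt g v)) = lt g (S (ContinuousLinearMap.adjoint S v))
    rw [hS', hS]
  have t1 := h1 G I J (Rk S c k ∘L S) (ContinuousLinearMap.adjoint S) hRS hS'
  have t2 := h1 G J J (Rk S c k) (S ∘L ContinuousLinearMap.adjoint S) hR hSS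
  have e1 : ∀ i : I, ⟪dl ((1 : G), i), ((1 - c • (ContinuousLinearMap.adjoint S ∘L S)) ^ k)
      (dl ((1 : G), i))⟫ = (1 : ℝ) - ⟪dl ((1 : G), i),
        ContinuousLinearMap.adjoint S ((Rk S c k ∘L S) (dl ((1 : G), i)))⟫ := by
    intro i
    rw [pow_left, inner_sub_right, real_inner_self_eq_norm_sq, norm_dl, one_pow]
    rfl
  have e2 : ∀ j : J, ⟪dl ((1 : G), j), ((1 - c • (S ∘L ContinuousLinearMap.adjoint S)) ^ k)
      (dl ((1 : G), j))⟫ = (1 : ℝ) - ⟪dl ((1 : G), j),
        (S ∘L ContinuousLinearMap.adjoint S) (Rk S c k (dl ((1 : G), j)))⟫ := by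
    intro j
    rw [pow_right, inner_sub_right, real_inner_self_eq_norm_sq, norm_dl, one_pow]
    rfl
  rw [Finset.sum_congr rfl fun i _ => e1 i, Finset.sum_congr rfl fun j _ => e2 j,
    Finset.sum_sub_distrib, Finset.sum_sub_distrib, t1, t2]
  simp only [Finset.sum_const, Finset.card_univ, nsmul_eq_mul, mul_one]
  have e3 : ∀ j : J, ⟪dl ((1 : G), j), (Rk S c k ∘L S) (ContinuousLinearMap.adjoint S
      (dl ((1 : G), j)))⟫ = (⟪dl ((1 : G), j), Rk S c k ((S ∘L ContinuousLinearMap.adjoint S)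
        (dl ((1 : G), j)))⟫ : ℝ) := fun j => rfl
  rw [Finset.sum_congr rfl fun j _ => e3 j]
  ring

end Pool.Agent.H60.BTL
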