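import Pool.Agent.H60.BTL.DMB

/-!
# RNT: rank and nullity on a closed invariant subspace (MP_60ff71_an)
-/

set_option autoImplicit false

universe u

open scoped RealInnerProductSpace

namespace Pool.Agent.H60.BTL

open Pool.Agent.H74.BTL

theorem pf_RNT (h1 : T_RNK.{u}) (h2 : T_EQA.{u}) (h3 : T_DMB.{u}) : T_RNT.{u} := by
  intro G _ I J _ _ T V hT hV
  have hP : Eqv (PR V) := ((h2 G I I).2.2 V hV).2.2.1
  have hPa : ∀ x ∈ V.topologicalClosure, PR V x = x := by
    intro x hx
    refine PR_eq hx fun w _ => ?_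
    rw [sub_self, inner_zero_left]
  have hPb : ∀ x ∈ Vᗮ, PR V x = 0 := by
    intro x hx
    refine PR_eq (Submodule.zero_mem _) fun w hw => ?_
    rw [sub_zero, real_inner_comm]
    exact hx w hw
  have hS : Eqv (T ∘L PR V) := by
    intro g v
    show T (PR V (lt g v)) = lt g (T (PR V v))
    rw [hP, hT]
  have r1 := h1 G I J (T ∘L PR V) hS
  have k1 : kr (ContinuousLinearMap.adjoint (T ∘L PR V)) = (mp T V)ᗮ := by
    ext w
    rw [mem_kr, Submodule.mem_orthogonal']
    constructor
    · intro hw u hu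
      obtain ⟨v, hv, rfl⟩ := mem_mp.1 hu
      have e1 : ⟪ContinuousLinearMap.adjoint (T ∘L PR V) w, v⟫ = (0 : ℝ) := by
        rw [hw, inner_zero_left]
      rw [ContinuousLinearMap.adjoint_inner_left] at e1
      have e2 : (T ∘L PR V) v = T v := by
        show T (PR V v) = T v
        rw [hPa v (V.le_topologicalClosure hv)]
      rwa [e2] at e1
    · intro hw
      refine ext_inner_right ℝ fun v => ?_
      rw [ContinuousLinearMap.adjoint_inner_left, inner_zero_left]
      show ⟪w, T (PR V v)⟫ = (0 : ℝ)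
      rw [← ContinuousLinearMap.adjoint_inner_left]
      refine orth_closure (V := V) (fun u hu => ?_) _ (PR_mem V v)
      rw [ContinuousLinearMap.adjoint_inner_left]
      exact hw _ (mem_mp.2 ⟨u, hu, rfl⟩)
  have k2 : kr (T ∘L PR V) = (V.topologicalClosure ⊓ kr T) ⊔ Vᗮ := by
    ext x
    rw [mem_kr]
    constructor
    · intro hx
      have e : x = PR V x + (x - PR V x) := by abel
      rw [e]
      refine Submodule.add_mem_sup ⟨PR_mem V x, mem_kr.2 hx⟩ ?_
      rw [Submodule.mem_orthogonal']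
      intro v hv
      exact PR_orth V x v (V.le_topologicalClosure hv)
    · intro hx
      obtain ⟨a, ha, b, hb, rfl⟩ := Submodule.mem_sup.1 hx
      show T (PR V (a + b)) = 0
      rw [map_add, hPa a ha.1, hPb b hb, add_zero]
      exact mem_kr.1 ha.2
  have d1 : dm (mp T V)ᗮ = Fintype.card J - dm (mp T V) := ((h3 G J).2.1 (mp T V)).2.2.2
  have d2 : dm Vᗮ = Fintype.card I - dm V := ((h3 G I).2.1 V).2.2.2
  have d3 : dm ((V.topologicalClosure ⊓ kr T) ⊔ Vᗮ) =
      dm (V.topologicalClosure ⊓ kr T) + dm Vᗮ := by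
    refine (h3 G I).2.2.2 _ _ fun v hv w hw => ?_
    rw [real_inner_comm]
    refine orth_closure (V := V) (fun u hu => ?_) _ hv.1
    rw [real_inner_comm]
    exact hw u hu
  rw [k1, k2, d1, d3, d2] at r1
  linarith

end Pool.Agent.H60.BTL
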